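import Pool.Agent.H38.ER.Proj

open Pool.Agent.H38.ER

theorem Pool.Agent.Results.MP_ca1301_lc.Hard.result :
    ERHardOn
      (fun p : ℕ × List (List ℕ × ℤ) × List (List ℕ × ℤ) => PolyWF p.1 p.2.1 ∧ PolyWF p.1 p.2.2 ∧
        (∀ t ∈ p.2.2, t.1.sum ≤ 6) ∧ ∃ i : Fin p.1, ∀ x : Fin p.1 → ℝ, pev p.2.1 x = x i)
      fun p => ∃ (A : Matrix (Fin p.1) (Fin p.1) ℝ) (b : Fin p.1 → ℝ),
        ∀ x : Fin p.1 → ℝ, pev p.2.1 x = pev p.2.2 (A.mulVec x + b) :=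
  proj_erh.hardOn
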